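import Pool.Agent.H238R2.OminoGlue
import Pool.Agent.H238R2.NotRat

/-!
The generating function `T(z) = ∑ t(n) z^n` of fixed polyominoes is not a rational function.
-/

namespace Pool.Agent.Results.MP_66fa61_co.NotRational

open Pool.Agent.H238R2

/-- The generating function `T(z)` of fixed polyominoes, as a formal power series over `ℚ`:
its `n`-th coefficient is the number `t(n)` of fixed `n`-ominoes (in particular `t(0) = 0`,
since an omino is nonempty). -/
noncomputable def T : PowerSeries ℚ := PowerSeries.mk (fun n => (fixedCount n : ℚ))

/-- `T` is not rational: there are no polynomials `P, Q` over `ℚ` with `Q ≠ 0` and `T = P / Q`,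
that is `Q * T = P`. -/
theorem result : ¬ ∃ P Q : Polynomial ℚ, Q ≠ 0 ∧ (Q : PowerSeries ℚ) * T = (P : PowerSeries ℚ) :=
  not_rational_of_ineq fixedCount (fun _ hn => fixedCount_pos hn) glue_ineq

end Pool.Agent.Results.MP_66fa61_co.NotRational
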